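import Pool.Agent.Helper45.FU.Final

/-!
# MP_860c65_an, Q1

The square roots of the nonnegative integers form a Fourier uniqueness pair for the space of
even functions with finite weighted norm.

`𝓕 f ξ` is the Fourier transform of Mathlib, the integral of `f x * exp (-2 π i x ξ)` over `x`.
-/

open MeasureTheory FourierTransform

namespace Pool.Agent.Results.MP_860c65_an.Uniqueness

/-- The even functions in the weighted space: the continuous even functions `f` for which
`(|f|^2 + |𝓕 f|^2) (1 + x^2)` is integrable over the real line. -/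
def He : Set (ℝ → ℂ) :=
  {f | Continuous f ∧ (∀ x, f (-x) = f x) ∧
    Integrable fun x : ℝ => (‖f x‖ ^ 2 + ‖𝓕 f x‖ ^ 2) * (1 + x ^ 2)}

/-- `(L, W)` is a Fourier uniqueness pair for the class `H`: every `f` in `H` which vanishes on
`L` and whose Fourier transform vanishes on `W` is identically zero. -/
def IsUniquenessPair (L W : Set ℝ) (H : Set (ℝ → ℂ)) : Prop :=
  ∀ f ∈ H, (∀ x ∈ L, f x = 0) → (∀ ξ ∈ W, 𝓕 f ξ = 0) → f = 0

/-- The square roots of the nonnegative integers. -/
def Lambda0 : Set ℝ := {x | ∃ n : ℕ, x = Real.sqrt n}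

/-- The square roots of the nonnegative integers form a Fourier uniqueness pair for `He`. -/
theorem result : IsUniquenessPair Lambda0 Lambda0 He := by
  rintro f ⟨hc, heven, hw⟩ hz hz'
  funext x
  exact Pool.Agent.Helper45.FU.uniqueness hc heven hw (fun n => hz _ ⟨n, rfl⟩)
    (fun n => hz' _ ⟨n, rfl⟩) x

end Pool.Agent.Results.MP_860c65_an.Uniqueness
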